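import Pool.Agent.Lib.MP_8f66f0_al_Kuhn.Ord

/-! # Products of trees with permuted factors

The cells of a forest form a partial order of height two. We describe the forests by a rooted
structure: every cell `x` has a depth `D x` (even for vertices, odd for edges), and a parent `P x`.
The choices of one cell in each component form a partial order, on which every group acts which acts
on the forest. If the forest has finitely many components, this partial order has finite height, and
it is contractible. -/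

set_option autoImplicit false

namespace Pool.Agent.Kuhn.Ord

open Pool.Agent.WhVan Pool.Agent.Kuhn

/-- A forest, with a root in each component, as a partial order. -/
structure Forest (α Q : Type) [PartialOrder α] where
  /-- the component -/
  π : α → Q
  /-- the depth -/
  D : α → ℕ
  /-- the parent -/
  P : α → α
  /-- the root of a component -/
  root : Q → α
  π_P : ∀ x, π (P x) = π x
  π_root : ∀ q, π (root q) = q
  D_P : ∀ x, D x ≠ 0 → D (P x) + 1 = D x
  D_zero : ∀ x, D x = 0 → x = root (π x)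
  lt : ∀ x y, x < y → (D x ≠ 0 ∧ P x = y) ∨ (D y ≠ 0 ∧ P y = x)
  even : ∀ x, D x ≠ 0 → Even (D x) → x ≤ P x
  odd : ∀ x, Odd (D x) → P x ≤ x

section

variable {α Q : Type} [PartialOrder α] (F : Forest α Q)

namespace Forest

/-- The ancestor of depth at most `n`. -/
def rho (n : ℕ) (x : α) : α := F.P^[F.D x - n] x

theorem π_iter (k : ℕ) (x : α) : F.π (F.P^[k] x) = F.π x := by
  induction k generalizing x with
  | zero => rfl
  | succ k ih => rw [Function.iterate_succ_apply, ih, F.π_P]

theorem π_rho (n : ℕ) (x : α) : F.π (F.rho n x) = F.π x := F.π_iter _ _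

theorem D_iter (k : ℕ) (x : α) (h : k ≤ F.D x) : F.D (F.P^[k] x) + k = F.D x := by
  induction k generalizing x with
  | zero => rfl
  | succ k ih =>
    have h1 := F.D_P x (by omega)
    rw [Function.iterate_succ_apply]
    have h2 := ih (F.P x) (by omega)
    omega

theorem rho_of_le {n : ℕ} {x : α} (h : F.D x ≤ n) : F.rho n x = x := by
  rw [rho, Nat.sub_eq_zero_of_le h, Function.iterate_zero_apply]

theorem D_rho {n : ℕ} {x : α} (h : n ≤ F.D x) : F.D (F.rho n x) = n := by
  have := F.D_iter (F.D x - n) x (Nat.sub_le _ _)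
  rw [rho]
  omega

theorem rho_P {n : ℕ} {x : α} (h : n < F.D x) : F.rho n (F.P x) = F.rho n x := by
  have h1 := F.D_P x (by omega)
  rw [rho, rho, ← Function.iterate_succ_apply]
  congr 1
  omega

theorem rho_succ {n : ℕ} {x : α} (h : n < F.D x) : F.rho n x = F.P (F.rho (n + 1) x) := by
  rw [rho, rho, ← Function.iterate_succ_apply' F.P]
  congr 1
  omega

theorem π_lt {x y : α} (h : x < y) : F.π x = F.π y := by
  rcases F.lt x y h with h1 | h1
  · rw [← h1.2, F.π_P]
  · rw [← h1.2, F.π_P]

theorem π_le {x y : α} (h : x ≤ y) : F.π x = F.π y := by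
  rcases h.lt_or_eq with h1 | h1
  · exact F.π_lt h1
  · rw [h1]

theorem mono (n : ℕ) : Monotone (F.rho n) := by
  intro x y h
  rcases h.lt_or_eq with h1 | h1
  · rcases F.lt x y h1 with ⟨h2, h3⟩ | ⟨h2, h3⟩
    · rcases lt_or_ge n (F.D x) with h4 | h4
      · rw [← h3, F.rho_P h4]
      · have h5 := F.D_P x h2
        rw [F.rho_of_le h4, F.rho_of_le (x := y) (by rw [← h3]; omega)]
        exact h
    · rcases lt_or_ge n (F.D y) with h4 | h4
      · rw [← h3, F.rho_P h4]
      · have h5 := F.D_P y h2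
        rw [F.rho_of_le h4, F.rho_of_le (x := x) (by rw [← h3]; omega)]
        exact h
  · rw [h1]

theorem step_odd {n : ℕ} (hn : Odd (n + 1)) (x : α) : F.rho n x ≤ F.rho (n + 1) x := by
  rcases lt_or_ge n (F.D x) with h4 | h4
  · rw [F.rho_succ h4]
    exact F.odd _ (by rw [F.D_rho (by omega)]; exact hn)
  · rw [F.rho_of_le h4, F.rho_of_le (by omega)]

theorem step_even {n : ℕ} (hn : Even (n + 1)) (x : α) : F.rho (n + 1) x ≤ F.rho n x := by
  rcases lt_or_ge n (F.D x) with h4 | h4
  · rw [F.rho_succ h4]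
    exact F.even _ (by rw [F.D_rho (by omega)]; omega) (by rw [F.D_rho (by omega)]; exact hn)
  · rw [F.rho_of_le h4, F.rho_of_le (by omega)]

theorem rho_zero (x : α) : F.rho 0 x = F.root (F.π x) := by
  have h := F.D_zero (F.rho 0 x) (F.D_rho (Nat.zero_le _))
  rw [h, F.π_rho]

theorem D_lt {x y : α} (h : x < y) : Even (F.D x) ∧ Odd (F.D y) := by
  rcases F.lt x y h with ⟨h2, h3⟩ | ⟨h2, h3⟩
  · have h5 := F.D_P x h2
    rcases Nat.even_or_odd (F.D x) with h6 | h6
    · refine ⟨h6, ?_⟩
      rw [← h3]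
      rw [← h5, Nat.even_add_one, Nat.not_even_iff_odd] at h6
      exact h6
    · exact absurd (F.odd x h6) (by rw [h3]; exact not_le_of_gt h)
  · have h5 := F.D_P y h2
    rcases Nat.even_or_odd (F.D y) with h6 | h6
    · exact absurd (F.even y h2 h6) (by rw [h3]; exact not_le_of_gt h)
    · refine ⟨?_, h6⟩
      rw [← h3]
      rw [← h5, Nat.odd_add_one, Nat.not_odd_iff_even] at h6
      exact h6

/-- The product of the components. -/
def Prd : Type := {c : Q → α // ∀ q, F.π (c q) = q}

instance : PartialOrder F.Prd := inferInstanceAs (PartialOrder {c : Q → α // ∀ q, F.π (c q) = q})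

theorem ev_all [Finite Q] (c : Q → α) : ∃ n, ∀ m, n ≤ m → ∀ q, F.rho m (c q) = c q := by
  cases nonempty_fintype Q
  refine ⟨∑ q, F.D (c q), fun m hm q => F.rho_of_le (le_trans ?_ hm)⟩
  exact Finset.single_le_sum (f := fun q => F.D (c q)) (fun _ _ => Nat.zero_le _)
    (Finset.mem_univ q)

/-- The contraction of the product. -/
def contr [Finite Q] : Contr F.Prd where
  r n c := ⟨fun q => F.rho n (c.1 q), fun q => by rw [F.π_rho, c.2]⟩
  mono n c c' h q := F.mono n (h q)
  b := ⟨F.root, F.π_root⟩
  zero c := Subtype.ext (funext fun q => by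
    change F.rho 0 (c.1 q) = F.root q
    rw [F.rho_zero, c.2])
  step n := by
    rcases Nat.even_or_odd (n + 1) with h | h
    · exact Or.inr fun c q => F.step_even h (c.1 q)
    · exact Or.inl fun c q => F.step_odd h (c.1 q)
  ev c := by
    obtain ⟨n, hn⟩ := F.ev_all c.1
    exact ⟨n, fun m hm => Subtype.ext (funext fun q => hn m hm q)⟩

/-- The number of edges. -/
def ht [Fintype Q] (c : F.Prd) : ℕ := ∑ q, F.D (c.1 q) % 2

theorem ht_lt [Fintype Q] {c c' : F.Prd} (h : c < c') : F.ht c < F.ht c' := by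
  have h1 : ∀ q, c.1 q ≤ c'.1 q := h.le
  have h2 : ∃ q, c.1 q ≠ c'.1 q := by
    by_contra h3
    push Not at h3
    exact h.ne (Subtype.ext (funext h3))
  obtain ⟨q, hq⟩ := h2
  have h3 : ∀ x y : α, x < y → F.D x % 2 = 0 ∧ F.D y % 2 = 1 := fun x y hxy =>
    ⟨Nat.even_iff.1 (F.D_lt hxy).1, Nat.odd_iff.1 (F.D_lt hxy).2⟩
  refine Finset.sum_lt_sum (fun j _ => ?_) ⟨q, Finset.mem_univ q, ?_⟩
  · rcases (h1 j).lt_or_eq with h4 | h4
    · have := h3 _ _ h4
      omega
    · rw [h4]
  · have := h3 _ _ (lt_of_le_of_ne (h1 q) hq)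
    omega

theorem ht_le [Fintype Q] (c : F.Prd) : F.ht c ≤ Fintype.card Q := by
  calc F.ht c ≤ ∑ _q : Q, 1 := Finset.sum_le_sum fun q _ => by omega
    _ = Fintype.card Q := by simp

theorem length_le [Fintype Q] (l : List F.Prd) (h : l.Pairwise (· < ·)) :
    l.length ≤ Fintype.card Q + 1 := by
  have h1 : (l.map F.ht).Pairwise (· < ·) := by
    rw [List.pairwise_map]
    exact h.imp fun {a b} hab => F.ht_lt hab
  have h2 : (l.map F.ht).Nodup := h1.imp fun {a b} hab => hab.ne
  have h3 : (l.map F.ht).toFinset ⊆ Finset.range (Fintype.card Q + 1) := by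
    intro s hs
    rw [List.mem_toFinset, List.mem_map] at hs
    obtain ⟨x, _, rfl⟩ := hs
    rw [Finset.mem_range]
    have := F.ht_le x
    omega
  have h4 := Finset.card_le_card h3
  rwa [List.toFinset_card_of_nodup h2, List.length_map, Finset.card_range] at h4

section Act

variable {G : Type} [Group G] [MulAction G α] [MulAction G Q]
  (hmono : ∀ (g : G) (x y : α), x ≤ y → g • x ≤ g • y)
  (hπ : ∀ (g : G) (x : α), F.π (g • x) = g • F.π x)

/-- The action on the product. -/
def actP (g : G) (c : F.Prd) : F.Prd :=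
  ⟨fun q => g • c.1 (g⁻¹ • q), fun q => by rw [hπ, c.2, smul_inv_smul]⟩

/-- The action on the product. -/
def dat : Dat G F.Prd where
  a := {
    toFun g := ⟨F.actP hπ g, F.actP hπ g⁻¹,
      fun c => Subtype.ext (funext fun q => by simp [actP]),
      fun c => Subtype.ext (funext fun q => by simp [actP])⟩
    map_one' := Equiv.ext fun c => Subtype.ext (funext fun q => by simp [actP])
    map_mul' g h := Equiv.ext fun c => Subtype.ext (funext fun q => by
      change (g * h) • c.1 ((g * h)⁻¹ • q) = g • h • c.1 (h⁻¹ • g⁻¹ • q)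
      rw [mul_inv_rev, mul_smul, mul_smul]) }
  mono g c c' h q := hmono g _ _ (h _)

theorem dat_apply (g : G) (c : F.Prd) (q : Q) : ((F.dat hmono hπ).a g c).1 q = g • c.1 (g⁻¹ • q) := rfl

include hmono hπ in
/-- A group which acts on a product of finitely many trees, possibly with a permutation of the
factors, such that all subgroups which fix a cell are in `NN`, is in `NN`. -/
theorem nn_of_forest [Finite Q] (h : ∀ C : Subgroup G, (∃ c : Q → α, (∀ q, F.π (c q) = q) ∧
    ∀ g ∈ C, ∀ q, g • c q = c (g • q)) → NN C) : NN G := by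
  cases nonempty_fintype Q
  refine nn_of_dat (F.dat hmono hπ) F.contr _ F.length_le fun C ⟨c, hc⟩ => h C ⟨c.1, c.2, ?_⟩
  intro g hg q
  have h1 := congrArg (fun x : F.Prd => x.1 (g • q)) (hc g hg)
  simp only [dat_apply, inv_smul_smul] at h1
  exact h1

include hmono hπ in
/-- The same for the internal version of `NN`. -/
theorem nn_of_forest' [Finite Q] (h : ∀ C : Subgroup G, (∃ c : Q → α, (∀ q, F.π (c q) = q) ∧
    ∀ g ∈ C, ∀ q, g • c q = c (g • q)) → Hier.NN C) : Hier.NN G := by
  cases nonempty_fintype Q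
  refine nn_of_dat' (F.dat hmono hπ) F.contr _ F.length_le fun C ⟨c, hc⟩ => h C ⟨c.1, c.2, ?_⟩
  intro g hg q
  have h1 := congrArg (fun x : F.Prd => x.1 (g • q)) (hc g hg)
  simp only [dat_apply, inv_smul_smul] at h1
  exact h1

include hmono hπ in
/-- The same for the class `SS`. -/
theorem ss_of_forest [Finite Q] (h : ∀ C : Subgroup G, (∃ c : Q → α, (∀ q, F.π (c q) = q) ∧
    ∀ g ∈ C, ∀ q, g • c q = c (g • q)) → Hier.SS C) : Hier.SS G := by
  cases nonempty_fintype Q
  refine ss_of_dat (F.dat hmono hπ) F.contr _ F.length_le fun C ⟨c, hc⟩ => h C ⟨c.1, c.2, ?_⟩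
  intro g hg q
  have h1 := congrArg (fun x : F.Prd => x.1 (g • q)) (hc g hg)
  simp only [dat_apply, inv_smul_smul] at h1
  exact h1

end Act

end Forest

end

end Pool.Agent.Kuhn.Ord
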