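import Pool.Agent.Lib.MP_8f66f0_al_FH.Kuhn
import Pool.Agent.Lib.MP_8f66f0_al_HierZ.FinalS

/-! # Finite permutation resolutions from actions on contractible partial orders

Let `G` act on a partial order `α` of finite height by order automorphisms, and suppose that `α` has
a combinatorial contraction. Then the chains of `α` give a finite resolution of the trivial module by
permutation modules whose stabilizers have a fixed point in `α`. -/

set_option autoImplicit false

namespace Pool.Agent.Kuhn.Ord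

open Pool.Agent.WhVan Pool.Agent.Kuhn

section Poset

variable {α : Type} [PartialOrder α]

/-- Degenerate simplices, with `k` vertices. -/
def W (k : ℕ) (l : List α) : Prop := l.Pairwise (· ≤ ·) ∧ l.length = k

/-- Simplices with `k` vertices. -/
def St (k : ℕ) (l : List α) : Prop := W k l ∧ l.Pairwise (· < ·)

theorem W_map {f : α → α} (hf : Monotone f) {k : ℕ} {l : List α} (h : W k l) :
    W k (l.map f) := by
  refine ⟨?_, by rw [List.length_map]; exact h.2⟩
  rw [List.pairwise_map]
  exact h.1.imp fun {a b} hab => hf hab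

theorem pl_mem {f g : α → α} (hf : Monotone f) (hg : Monotone g) (hfg : ∀ x, f x ≤ g x)
    (l : List α) (h : l.Pairwise (· ≤ ·)) :
    pl f g l ∈ Sp fun m : List α => W (l.length + 1) m ∧
      ∀ x ∈ m, ∃ b ∈ l, x = f b ∨ x = g b := by
  induction l with
  | nil => simp [pl]
  | cons a l ih =>
    rw [List.pairwise_cons] at h
    refine sub_mem (single_mem ⟨⟨?_, by simp⟩, ?_⟩ 1) (pre_mem (fun m hm => ⟨⟨?_, ?_⟩, ?_⟩) (ih h.2))
    · rw [List.pairwise_cons, List.pairwise_cons]
      refine ⟨?_, ?_, ?_⟩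
      · intro x hx
        rcases List.mem_cons.1 hx with rfl | hx
        · exact hfg a
        · obtain ⟨b, hb, rfl⟩ := List.mem_map.1 hx
          exact (hfg a).trans (hg (h.1 b hb))
      · intro x hx
        obtain ⟨b, hb, rfl⟩ := List.mem_map.1 hx
        exact hg (h.1 b hb)
      · rw [List.pairwise_map]
        exact h.2.imp fun {x y} hxy => hg hxy
    · intro x hx
      rcases List.mem_cons.1 hx with rfl | hx
      · exact ⟨a, List.mem_cons_self, Or.inl rfl⟩
      rcases List.mem_cons.1 hx with rfl | hx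
      · exact ⟨a, List.mem_cons_self, Or.inr rfl⟩
      · obtain ⟨b, hb, rfl⟩ := List.mem_map.1 hx
        exact ⟨b, List.mem_cons_of_mem _ hb, Or.inr rfl⟩
    · rw [List.pairwise_cons]
      refine ⟨fun x hx => ?_, hm.1.1⟩
      obtain ⟨b, hb, rfl | rfl⟩ := hm.2 x hx
      · exact hf (h.1 b hb)
      · exact (hf (h.1 b hb)).trans (hfg b)
    · rw [List.length_cons, hm.1.2, List.length_cons]
    · intro x hx
      rcases List.mem_cons.1 hx with rfl | hx
      · exact ⟨a, List.mem_cons_self, Or.inl rfl⟩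
      · obtain ⟨b, hb, hb'⟩ := hm.2 x hx
        exact ⟨b, List.mem_cons_of_mem _ hb, hb'⟩

theorem pr_mem {f g : α → α} (hf : Monotone f) (hg : Monotone g) (hfg : ∀ x, f x ≤ g x) {k : ℕ}
    {z : Ch α} (h : z ∈ Sp (W k)) : pr f g z ∈ Sp (W (k + 1)) :=
  sp_map _ (W k) (Sp (W (k + 1))) (fun l hl => by
    rw [pr_single]
    refine sp_mono (fun m hm => ?_) (pl_mem hf hg hfg l hl.1)
    rw [← hl.2]
    exact hm.1) h

/-- A contraction of a partial order. -/
structure Contr (α : Type) [PartialOrder α] where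
  /-- the maps -/
  r : ℕ → α → α
  mono : ∀ n, Monotone (r n)
  /-- the base point -/
  b : α
  zero : ∀ x, r 0 x = b
  step : ∀ n, (∀ x, r n x ≤ r (n + 1) x) ∨ ∀ x, r (n + 1) x ≤ r n x
  ev : ∀ x, ∃ n, ∀ m, n ≤ m → r m x = x

theorem Contr.ev_list (C : Contr α) (l : List α) : ∃ n, ∀ m, n ≤ m → ∀ x ∈ l, C.r m x = x := by
  induction l with
  | nil => exact ⟨0, by simp⟩
  | cons a l ih =>
    obtain ⟨n, hn⟩ := ih
    obtain ⟨m, hm⟩ := C.ev a
    refine ⟨max n m, fun k hk x hx => ?_⟩
    rcases List.mem_cons.1 hx with rfl | hx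
    · exact hm k ((le_max_right _ _).trans hk)
    · exact hn k ((le_max_left _ _).trans hk) x hx

theorem Contr.ev_ch (C : Contr α) (z : Ch α) : ∃ n, ∀ l ∈ z.support, ∀ x ∈ l, C.r n x = x := by
  classical
  have key : ∀ s : Finset (List α), ∃ n, ∀ m, n ≤ m → ∀ l ∈ s, ∀ x ∈ l, C.r m x = x := by
    intro s
    induction s using Finset.induction_on with
    | empty => exact ⟨0, by simp⟩
    | insert l s _ ih =>
      obtain ⟨n, hn⟩ := ih
      obtain ⟨m, hm⟩ := C.ev_list l
      refine ⟨max n m, fun k hk l' hl' x hx => ?_⟩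
      rcases Finset.mem_insert.1 hl' with rfl | hl'
      · exact hm k ((le_max_right _ _).trans hk) x hx
      · exact hn k ((le_max_left _ _).trans hk) l' hl' x hx
  obtain ⟨n, hn⟩ := key z.support
  exact ⟨n, hn n le_rfl⟩

/-- Acyclicity of the complex with degenerate simplices. -/
theorem acyclic_W (C : Contr α) {k : ℕ} {z : Ch α} (hz : z ∈ Sp (W k)) (hd : d z = 0) :
    ∃ y ∈ Sp (W (k + 1)), d y = z := by
  obtain ⟨n, hn⟩ := C.ev_ch z
  have hb : z ∈ Sp fun l => W k l ∧ ∀ x ∈ l, C.r n x = x :=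
    sp_mono (fun l hl => ⟨hl.1, hn l hl.2⟩) (sp_and hz (mem_sp_support z))
  have h1 : mp (C.r n) z = z := by
    refine (sp_eq (ψ := LinearMap.id) (fun l hl => ?_) hb)
    rw [mp_single, LinearMap.id_apply]
    congr 1
    conv_rhs => rw [← List.map_id l]
    exact List.map_congr_left fun x hx => hl.2 x hx
  have h2 : mp (C.r 0) z ∈ Sp fun l : List α => W k l ∧ ∀ x ∈ l, x = C.b := by
    refine sp_map _ _ _ (fun l hl => ?_) hz
    rw [mp_single]
    refine single_mem ⟨W_map (C.mono 0) hl, fun x hx => ?_⟩ 1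
    obtain ⟨b, hb', rfl⟩ := List.mem_map.1 hx
    exact C.zero b
  have h3 : ∀ m : ℕ, ∃ y ∈ Sp (W (k + 1)), d y = mp (C.r m) z - mp (C.r 0) z := by
    intro m
    induction m with
    | zero => exact ⟨0, zero_mem _, by simp⟩
    | succ m ih =>
      obtain ⟨y, hy, hy'⟩ := ih
      rcases C.step m with h | h
      · refine ⟨y + pr (C.r m) (C.r (m + 1)) z,
          add_mem hy (pr_mem (C.mono _) (C.mono _) h hz), ?_⟩
        have h4 := pr_d (C.r m) (C.r (m + 1)) z
        rw [hd, map_zero, add_zero] at h4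
        rw [map_add, hy', h4]
        abel
      · refine ⟨y - pr (C.r (m + 1)) (C.r m) z,
          sub_mem hy (pr_mem (C.mono _) (C.mono _) h hz), ?_⟩
        have h4 := pr_d (C.r (m + 1)) (C.r m) z
        rw [hd, map_zero, add_zero] at h4
        rw [map_sub, hy', h4]
        abel
  obtain ⟨y, hy, hy'⟩ := h3 n
  have h6 : pre C.b (mp (C.r 0) z) ∈ Sp (W (k + 1)) := by
    refine pre_mem (fun l hl => ?_) h2
    refine ⟨?_, by rw [List.length_cons, hl.1.2]⟩
    rw [List.pairwise_cons]
    refine ⟨fun x hx => ?_, hl.1.1⟩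
    rw [hl.2 x hx]
  refine ⟨_, add_mem hy h6, ?_⟩
  rw [map_add, hy', d_pre, d_mp, hd, map_zero, map_zero, h1]
  abel

open Classical in
/-- Kill the degenerate lists. -/
noncomputable def pil (l : List α) : Ch α :=
  if l.Pairwise (· < ·) then Finsupp.single l 1 else 0

/-- Kill the degenerate lists. -/
noncomputable def pj : Ch α →ₗ[ℤ] Ch α := Finsupp.linearCombination ℤ pil

@[simp] theorem pj_single (l : List α) : pj (Finsupp.single l 1) = pil l := by
  simp [pj]

open Classical in
/-- Prepend `a` to the lists whose elements are bigger. -/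
noncomputable def ql (a : α) (l : List α) : Ch α :=
  if ∀ b ∈ l, a < b then Finsupp.single (a :: l) 1 else 0

/-- Prepend `a` to the lists whose elements are bigger. -/
noncomputable def qj (a : α) : Ch α →ₗ[ℤ] Ch α := Finsupp.linearCombination ℤ (ql a)

@[simp] theorem qj_single (a : α) (l : List α) : qj a (Finsupp.single l 1) = ql a l := by
  simp [qj]

theorem pj_pre (a : α) (z : Ch α) : pj (pre a z) = qj a (pj z) := by
  have h : pj ∘ₗ pre a = qj a ∘ₗ pj := by
    refine lext fun l => ?_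
    simp only [LinearMap.comp_apply, pre_single, pj_single, pil]
    by_cases h1 : l.Pairwise (· < ·)
    · by_cases h2 : ∀ b ∈ l, a < b
      · rw [if_pos (List.pairwise_cons.2 ⟨h2, h1⟩), if_pos h1, qj_single, ql, if_pos h2]
      · rw [if_neg (fun h => h2 (List.pairwise_cons.1 h).1), if_pos h1, qj_single, ql, if_neg h2]
    · rw [if_neg (fun h => h1 (List.pairwise_cons.1 h).2), if_neg h1, map_zero]
  exact LinearMap.congr_fun h z

theorem qj_big {a : α} {z : Ch α} (h : z ∈ Sp fun l => ∀ b ∈ l, a < b) :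
    qj a z = pre a z := by
  refine sp_eq (fun l hl => ?_) h
  rw [qj_single, ql, if_pos hl, pre_single]

theorem pj_dl {l : List α} (h : l.Pairwise (· ≤ ·)) : pj (dl l) = d (pil l) := by
  induction l with
  | nil => simp [dl, pil]
  | cons a l ih =>
    rw [List.pairwise_cons] at h
    rw [dl, map_sub, pj_single, pj_pre, ih h.2]
    by_cases h1 : l.Pairwise (· < ·)
    · have h2 : pil l = Finsupp.single l 1 := by rw [pil, if_pos h1]
      rw [h2, d_single]
      by_cases h3 : ∀ b ∈ l, a < b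
      · have h4 : pil (a :: l) = Finsupp.single (a :: l) 1 := by
          rw [pil, if_pos (List.pairwise_cons.2 ⟨h3, h1⟩)]
        rw [h4, d_single, dl, qj_big (sp_mono (fun m hm b hb => h3 b (hm.1.subset hb)) (dl_mem l))]
      · have h4 : pil (a :: l) = 0 := by
          rw [pil, if_neg (fun h => h3 (List.pairwise_cons.1 h).1)]
        rw [h4, map_zero]
        cases l with
        | nil => exact absurd (by simp) h3
        | cons b m =>
          rw [List.pairwise_cons] at h1
          have h5 : a = b := by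
            by_contra hne
            refine h3 fun c hc => ?_
            have hab : a < b := lt_of_le_of_ne (h.1 b List.mem_cons_self) hne
            rcases List.mem_cons.1 hc with rfl | hc
            · exact hab
            · exact hab.trans (h1.1 c hc)
          subst h5
          have h6 : qj a (pre a (dl m)) = 0 := by
            have h7 : qj a ∘ₗ pre a = 0 := by
              refine lext fun l' => ?_
              simp only [LinearMap.comp_apply, pre_single, qj_single, ql, LinearMap.zero_apply]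
              exact if_neg fun h8 => lt_irrefl _ (h8 a List.mem_cons_self)
            exact LinearMap.congr_fun h7 _
          rw [dl, map_sub, h6, qj_single, ql, if_pos h1.1, sub_zero, sub_self]
    · have h2 : pil l = 0 := by rw [pil, if_neg h1]
      have h3 : pil (a :: l) = 0 := by
        rw [pil, if_neg (fun h => h1 (List.pairwise_cons.1 h).2)]
      rw [h2, h3, map_zero, map_zero, sub_zero]

theorem pj_d {k : ℕ} {z : Ch α} (h : z ∈ Sp (W k)) : pj (d z) = d (pj z) := by
  have h1 : (pj ∘ₗ d) z = (d ∘ₗ pj) z := by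
    refine sp_eq (p := W k) (fun l hl => ?_) h
    simp only [LinearMap.comp_apply, d_single, pj_single]
    exact pj_dl hl.1
  exact h1

theorem pj_mem {k : ℕ} {z : Ch α} (h : z ∈ Sp (W k)) : pj z ∈ Sp (St k) := by
  refine sp_map _ _ _ (fun l hl => ?_) h
  rw [pj_single, pil]
  by_cases h1 : l.Pairwise (· < ·)
  · rw [if_pos h1]
    exact single_mem ⟨hl, h1⟩ 1
  · rw [if_neg h1]
    exact zero_mem _

theorem pj_id {k : ℕ} {z : Ch α} (h : z ∈ Sp (St k)) : pj z = z := by
  refine sp_eq (ψ := LinearMap.id) (fun l hl => ?_) h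
  rw [pj_single, pil, if_pos hl.2, LinearMap.id_apply]

/-- Acyclicity of the complex of simplices. -/
theorem acyclic (C : Contr α) {k : ℕ} {z : Ch α} (hz : z ∈ Sp (St k)) (hd : d z = 0) :
    ∃ y ∈ Sp (St (k + 1)), d y = z := by
  obtain ⟨y, hy, hy'⟩ := acyclic_W C (sp_mono (fun l hl => hl.1) hz) hd
  exact ⟨pj y, pj_mem hy, by rw [← pj_d hy, hy', pj_id hz]⟩

theorem d_mem {k : ℕ} {z : Ch α} (hz : z ∈ Sp (St (k + 1))) : d z ∈ Sp (St k) := by
  refine sp_map _ _ _ (fun l hl => ?_) hz
  rw [d_single]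
  refine sp_mono (fun m hm => ⟨⟨hl.1.1.sublist hm.1, ?_⟩, hl.2.sublist hm.1⟩) (dl_mem l)
  have := hl.1.2
  omega

end Poset

section Act

variable {G : Type} [Group G] {α : Type} [PartialOrder α]

/-- An action of `G` on `α` by order automorphisms. -/
structure Dat (G : Type) [Group G] (α : Type) [PartialOrder α] where
  /-- the action -/
  a : G →* Equiv.Perm α
  mono : ∀ g x y, x ≤ y → a g x ≤ a g y

variable (D : Dat G α)

theorem Dat.lt (g : G) {x y : α} (h : x < y) : D.a g x < D.a g y :=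
  lt_of_le_of_ne (D.mono g x y h.le) fun h1 => h.ne ((D.a g).injective h1)

theorem Dat.St (g : G) {k : ℕ} {l : List α} (h : Ord.St k l) : Ord.St k (l.map (D.a g)) :=
  ⟨W_map (D.mono g) h.1, by
    rw [List.pairwise_map]
    exact h.2.imp fun {a b} hab => D.lt g hab⟩

theorem Dat.mem (g : G) {k : ℕ} {z : Ch α} (h : z ∈ Sp (Ord.St k)) :
    mp (D.a g) z ∈ Sp (Ord.St k) :=
  sp_map _ _ _ (fun l hl => by rw [mp_single]; exact single_mem (D.St g hl) 1) h

theorem Dat.mp_mul (g h : G) (z : Ch α) : mp (D.a (g * h)) z = mp (D.a g) (mp (D.a h) z) := by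
  rw [mp_mp]
  congr 2
  rw [map_mul]
  rfl

theorem Dat.mp_one (z : Ch α) : mp (D.a 1) z = z := by
  have h : (D.a 1 : α → α) = id := by
    rw [map_one]
    rfl
  rw [h, mp_id]

/-- The chains. -/
def CT (_D : Dat G α) (k : ℕ) : Type := Sp (V := α) (Ord.St k)

noncomputable instance (k : ℕ) : AddCommGroup (CT D k) :=
  inferInstanceAs (AddCommGroup (Sp (V := α) (Ord.St k)))

noncomputable instance (k : ℕ) : DistribMulAction G (CT D k) where
  smul g z := ⟨mp (D.a g) z.1, D.mem g z.2⟩
  one_smul z := Subtype.ext (D.mp_one z.1)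
  mul_smul g h z := Subtype.ext (D.mp_mul g h z.1)
  smul_zero g := Subtype.ext (map_zero (mp (D.a g)))
  smul_add g x y := Subtype.ext (map_add (mp (D.a g)) x.1 y.1)

theorem ct_smul (k : ℕ) (g : G) (z : CT D k) : (g • z).1 = mp (D.a g) z.1 := rfl

/-- The cycles. -/
def ZT (_D : Dat G α) (k : ℕ) : Type :=
  (Sp (V := α) (Ord.St k) ⊓ LinearMap.ker d : Submodule ℤ (Ch α))

noncomputable instance (k : ℕ) : AddCommGroup (ZT D k) :=
  inferInstanceAs (AddCommGroup (Sp (V := α) (Ord.St k) ⊓ LinearMap.ker d :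
    Submodule ℤ (Ch α)))

theorem zt_mem (g : G) {k : ℕ} (z : ZT D k) :
    mp (D.a g) z.1 ∈ (Sp (V := α) (Ord.St k) ⊓ LinearMap.ker d : Submodule ℤ (Ch α)) := by
  refine ⟨D.mem g z.2.1, ?_⟩
  have h : d z.1 = 0 := z.2.2
  rw [SetLike.mem_coe, LinearMap.mem_ker, d_mp, h, map_zero]

noncomputable instance (k : ℕ) : DistribMulAction G (ZT D k) where
  smul g z := ⟨mp (D.a g) z.1, zt_mem D g z⟩
  one_smul z := Subtype.ext (D.mp_one z.1)
  mul_smul g h z := Subtype.ext (D.mp_mul g h z.1)
  smul_zero g := Subtype.ext (map_zero (mp (D.a g)))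
  smul_add g x y := Subtype.ext (map_add (mp (D.a g)) x.1 y.1)

theorem zt_smul (k : ℕ) (g : G) (z : ZT D k) : (g • z).1 = mp (D.a g) z.1 := rfl

/-- The simplices with `k` vertices. -/
def SX (_D : Dat G α) (k : ℕ) : Type := {l : List α // Ord.St k l}

instance (k : ℕ) : MulAction G (SX D k) where
  smul g l := ⟨l.1.map (D.a g), D.St g l.2⟩
  one_smul l := Subtype.ext (by
    change l.1.map (D.a 1) = l.1
    rw [map_one]
    exact List.map_id l.1)
  mul_smul g h l := Subtype.ext (by
    change l.1.map (D.a (g * h)) = (l.1.map (D.a h)).map (D.a g)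
    rw [map_mul, List.map_map]
    rfl)

/-- The basis of the chains. -/
noncomputable def bas (k : ℕ) : Module.Basis (SX D k) ℤ (CT D k) :=
  Module.Basis.ofRepr (Finsupp.supportedEquivFinsupp {l : List α | Ord.St k l})

theorem bas_apply (k : ℕ) (x : SX D k) : (bas D k x).1 = Finsupp.single x.1 1 := by
  have h : bas D k x = (Finsupp.supportedEquivFinsupp {l : List α | Ord.St k l}).symm
      (Finsupp.single x 1) := rfl
  rw [h]
  exact Finsupp.supportedEquivFinsupp_symm_single _ _ _

theorem isPerm (𝒞 : Subgroup G → Prop)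
    (h𝒞 : ∀ C : Subgroup G, (∃ x, ∀ g ∈ C, D.a g x = x) → 𝒞 C) (k : ℕ) :
    IsPerm 𝒞 (CT D (k + 1)) := by
  refine ⟨SX D (k + 1), inferInstance, bas D (k + 1), fun g x => Subtype.ext ?_, fun x => ?_⟩
  · rw [ct_smul, bas_apply, bas_apply, mp_single]
    rfl
  · rcases hx : x.1 with _ | ⟨a, l⟩
    · have h1 := x.2.1.2
      rw [hx] at h1
      exact absurd h1 (by simp)
    · refine h𝒞 _ ⟨a, fun g hg => ?_⟩
      have h1 : x.1.map (D.a g) = x.1 :=
        congrArg (fun y : SX D (k + 1) => y.1) (MulAction.mem_stabilizer_iff.1 hg)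
      rw [hx, List.map_cons] at h1
      exact (List.cons.inj h1).1

theorem isPerm_zero (𝒞 : Subgroup G → Prop) {N : ℕ}
    (hN : ∀ l : List α, l.Pairwise (· < ·) → l.length ≤ N) : IsPerm 𝒞 (ZT D (N + 1)) := by
  have h0 : Subsingleton (ZT D (N + 1)) := by
    refine ⟨fun x y => Subtype.ext ?_⟩
    have h1 : ∀ z : ZT D (N + 1), z.1 = 0 := by
      intro z
      have h2 : (LinearMap.id : Ch α →ₗ[ℤ] Ch α) z.1 = (0 : Ch α →ₗ[ℤ] Ch α) z.1 :=
        sp_eq (fun l hl => absurd (hN l hl.2) (by rw [hl.1.2]; omega)) z.2.1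
      exact h2
    rw [h1 x, h1 y]
  refine ⟨Empty, { smul := fun _ x => x, one_smul := fun _ => rfl, mul_smul := fun _ _ _ => rfl },
    Module.Basis.empty _, fun _ x => x.elim, fun x => x.elim⟩

/-- The inclusion of the cycles. -/
noncomputable def inc (k : ℕ) : ZT D k →+[G] CT D k where
  toFun z := ⟨z.1, z.2.1⟩
  map_smul' _ _ := rfl
  map_zero' := rfl
  map_add' _ _ := rfl

/-- The boundary. -/
noncomputable def bd (k : ℕ) : CT D (k + 1) →+[G] ZT D k where
  toFun z := ⟨d z.1, d_mem z.2, d_d z.1⟩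
  map_smul' g z := Subtype.ext (d_mp (D.a g) z.1)
  map_zero' := Subtype.ext (map_zero d)
  map_add' x y := Subtype.ext (map_add d x.1 y.1)

theorem res_Z (K : Contr α) (𝒞 : Subgroup G → Prop)
    (h𝒞 : ∀ C : Subgroup G, (∃ x, ∀ g ∈ C, D.a g x = x) → 𝒞 C) {N : ℕ}
    (hN : ∀ l : List α, l.Pairwise (· < ·) → l.length ≤ N) (m : ℕ) :
    ∀ k, k + m = N + 1 → Res 𝒞 (ZT D k) := by
  induction m with
  | zero =>
    intro k hk
    obtain rfl : k = N + 1 := by omega
    exact Res.perm (isPerm_zero D 𝒞 hN)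
  | succ m ih =>
    intro k hk
    refine Res.step (inc D (k + 1)) (bd D k) (fun x y h => ?_) (fun z => ?_) (fun z => ?_)
      (isPerm D 𝒞 h𝒞 k) (ih (k + 1) (by omega))
    · exact Subtype.ext (congrArg (fun y : CT D (k + 1) => y.1) h)
    · constructor
      · intro h
        exact ⟨⟨z.1, z.2, congrArg (fun y : ZT D k => y.1) h⟩, rfl⟩
      · rintro ⟨y, rfl⟩
        exact Subtype.ext y.2.2
    · obtain ⟨y, hy, hy'⟩ := acyclic K z.2.1 z.2.2
      exact ⟨⟨y, hy⟩, Subtype.ext hy'⟩

/-- The augmentation. -/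
noncomputable def aug : CT D 1 →+[G] TrivZ G where
  toFun z := d z.1 []
  map_smul' g z := by
    change d (mp (D.a g) z.1) [] = d z.1 []
    have h : (Finsupp.lapply [] ∘ₗ d ∘ₗ mp (D.a g) : Ch α →ₗ[ℤ] ℤ) z.1 =
        (Finsupp.lapply [] ∘ₗ d : Ch α →ₗ[ℤ] ℤ) z.1 := by
      refine sp_eq (fun l hl => ?_) z.2
      obtain ⟨a, rfl⟩ := List.length_eq_one_iff.1 hl.1.2
      simp [dl]
    exact h
  map_zero' := by
    change d (0 : Ch α) [] = 0
    rw [map_zero]
    rfl
  map_add' x y := by
    change d (x.1 + y.1) [] = d x.1 [] + d y.1 []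
    rw [map_add]
    rfl

theorem aug_zero {z : CT D 1} (h : aug D z = 0) : d z.1 = 0 := by
  have h1 : d z.1 ∈ Sp (Ord.St (α := α) 0) := d_mem z.2
  ext l
  by_cases hl : l = []
  · subst hl
    exact h
  · rw [Sp, Finsupp.mem_supported] at h1
    by_contra h2
    exact hl (List.length_eq_zero_iff.1 (h1 (Finsupp.mem_support_iff.2 h2)).1.2)

/-- A finite resolution of the trivial module. -/
theorem res_triv (K : Contr α) (𝒞 : Subgroup G → Prop)
    (h𝒞 : ∀ C : Subgroup G, (∃ x, ∀ g ∈ C, D.a g x = x) → 𝒞 C) {N : ℕ}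
    (hN : ∀ l : List α, l.Pairwise (· < ·) → l.length ≤ N) : Res 𝒞 (TrivZ G) := by
  refine Res.step (inc D 1) (aug D) (fun x y h => ?_) (fun z => ?_) (fun z => ?_)
    (isPerm D 𝒞 h𝒞 0) (res_Z D K 𝒞 h𝒞 hN N 1 (by omega))
  · exact Subtype.ext (congrArg (fun y : CT D 1 => y.1) h)
  · constructor
    · intro h
      exact ⟨⟨z.1, z.2, aug_zero D h⟩, rfl⟩
    · rintro ⟨y, rfl⟩
      have h : d y.1 = 0 := y.2.2
      change d y.1 [] = 0
      rw [h]
      rfl
  · have key : ∀ n : ℤ, d (Finsupp.single [K.b] n) [] = n := by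
      intro n
      have h1 : (Finsupp.single [K.b] n : Ch α) = n • Finsupp.single [K.b] (1 : ℤ) := by
        rw [Finsupp.smul_single, smul_eq_mul, mul_one]
      rw [h1, map_smul, d_single]
      simp [dl]
    refine ⟨⟨Finsupp.single [K.b] (show ℤ from z), ?_⟩, key z⟩
    exact single_mem ⟨⟨List.pairwise_singleton _ _, rfl⟩, List.pairwise_singleton _ _⟩ _

variable {D}

/-- A group which acts on a contractible partial order of finite height by order automorphisms is in
`NN` if all subgroups with a fixed point are in `NN`. -/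
theorem nn_of_dat (D : Dat G α) (K : Contr α) (N : ℕ)
    (hN : ∀ l : List α, l.Pairwise (· < ·) → l.length ≤ N)
    (h : ∀ C : Subgroup G, (∃ x, ∀ g ∈ C, D.a g x = x) → NN C) : NN G :=
  NN.res (fun C => ∃ x, ∀ g ∈ C, D.a g x = x) h (res_triv D K _ (fun _ hC => hC) hN)

/-- The same for the internal version of `NN`. -/
theorem nn_of_dat' (D : Dat G α) (K : Contr α) (N : ℕ)
    (hN : ∀ l : List α, l.Pairwise (· < ·) → l.length ≤ N)
    (h : ∀ C : Subgroup G, (∃ x, ∀ g ∈ C, D.a g x = x) → Hier.NN C) : Hier.NN G := by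
  obtain ⟨n, hn⟩ := WhVan.exP_triv (res_triv D K (fun C => ∃ x, ∀ g ∈ C, D.a g x = x)
    (fun _ hC => hC) hN)
  exact Hier.NN.res _ n h hn

/-- The same for the class `SS`. -/
theorem ss_of_dat (D : Dat G α) (K : Contr α) (N : ℕ)
    (hN : ∀ l : List α, l.Pairwise (· < ·) → l.length ≤ N)
    (h : ∀ C : Subgroup G, (∃ x, ∀ g ∈ C, D.a g x = x) → Hier.SS C) : Hier.SS G := by
  obtain ⟨n, hn⟩ := WhVan.exP_triv (res_triv D K (fun C => ∃ x, ∀ g ∈ C, D.a g x = x)
    (fun _ hC => hC) hN)
  exact Hier.ss_exp _ h n hn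

end Act

end Pool.Agent.Kuhn.Ord
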